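import Mathlib

/-!
# Ideals of polynomial rings which stay prime over all extension fields
-/

set_option autoImplicit false

namespace Pool.Agent.N886.PAC

open MvPolynomial

/-- the ideal `I` of `K[x_1, ..., x_m]` stays prime over all extension fields of `K` -/
def GP (K : Type) [Field K] (m : ℕ) (I : Ideal (MvPolynomial (Fin m) K)) : Prop :=
  ∀ (E : Type) [Field E] [Algebra K E], (I.map (MvPolynomial.map (algebraMap K E))).IsPrime

section coef

variable {K E : Type} [Field K] [CommRing E] [Algebra K E] {m : ℕ}

/-- apply a linear functional to the coefficients -/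
noncomputable def cmap (l : E →ₗ[K] K) (f : MvPolynomial (Fin m) E) : MvPolynomial (Fin m) K :=
  ∑ d ∈ f.support, monomial d (l (coeff d f))

theorem coeff_cmap (l : E →ₗ[K] K) (f : MvPolynomial (Fin m) E) (d : Fin m →₀ ℕ) :
    coeff d (cmap l f) = l (coeff d f) := by
  classical
  unfold cmap
  rw [coeff_sum]
  simp only [coeff_monomial]
  rw [Finset.sum_ite_eq']
  split_ifs with h
  · rfl
  · rw [notMem_support_iff] at h
    rw [h, map_zero]

theorem cmap_add (l : E →ₗ[K] K) (f g : MvPolynomial (Fin m) E) :
    cmap l (f + g) = cmap l f + cmap l g := by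
  ext d
  simp [coeff_cmap]

theorem cmap_sub (l : E →ₗ[K] K) (f g : MvPolynomial (Fin m) E) :
    cmap l (f - g) = cmap l f - cmap l g := by
  ext d
  simp [coeff_cmap]

theorem cmap_zero (l : E →ₗ[K] K) : cmap l (0 : MvPolynomial (Fin m) E) = 0 := by
  ext d
  simp [coeff_cmap]

theorem cmap_mul (l : E →ₗ[K] K) (p : MvPolynomial (Fin m) K) (f : MvPolynomial (Fin m) E) :
    cmap l (MvPolynomial.map (algebraMap K E) p * f) = p * cmap l f := by
  classical
  ext d
  rw [coeff_cmap, coeff_mul, coeff_mul, map_sum]
  refine Finset.sum_congr rfl fun x _ => ?_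
  rw [coeff_map, coeff_cmap, ← Algebra.smul_def, map_smul, smul_eq_mul]

theorem cmap_mem (l : E →ₗ[K] K) (I : Ideal (MvPolynomial (Fin m) K))
    (f : MvPolynomial (Fin m) E) (hf : f ∈ I.map (MvPolynomial.map (algebraMap K E))) :
    cmap l f ∈ I := by
  unfold Ideal.map at hf
  induction hf using Submodule.span_induction with
  | mem x hx =>
    obtain ⟨p, hp, rfl⟩ := hx
    have h1 := cmap_mul l p 1
    rw [mul_one] at h1
    rw [h1]
    exact I.mul_mem_right _ hp
  | zero => rw [cmap_zero]; exact I.zero_mem
  | add x y _ _ h1 h2 => rw [cmap_add]; exact I.add_mem h1 h2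
  | smul a x hx h =>
    clear h
    -- `x` is in the ideal generated by the image, so we need a general statement
    rw [smul_eq_mul]
    induction hx using Submodule.span_induction generalizing a with
    | mem x hx =>
      obtain ⟨p, hp, rfl⟩ := hx
      rw [mul_comm]
      have h1 := cmap_mul l p a
      rw [h1]
      exact I.mul_mem_right _ hp
    | zero => rw [mul_zero, cmap_zero]; exact I.zero_mem
    | add x y _ _ h1 h2 => rw [mul_add, cmap_add]; exact I.add_mem (h1 a) (h2 a)
    | smul b x _ h => rw [smul_eq_mul, ← mul_assoc]; exact h _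

end coef

/-- going up -/
theorem GP.up {K L : Type} [Field K] [Field L] [Algebra K L] {m : ℕ}
    {I : Ideal (MvPolynomial (Fin m) K)} (h : GP K m I) :
    GP L m (I.map (MvPolynomial.map (algebraMap K L))) := by
  intro E _ _
  let _ : Algebra K E := ((algebraMap L E).comp (algebraMap K L)).toAlgebra
  have h1 := h E
  rw [Ideal.map_map]
  convert h1 using 2
  ext x <;> simp [RingHom.algebraMap_toAlgebra]

/-- an ideal of `E[x]` is the contraction of its extension to `M[x]` -/
theorem comap_map_eq {E M : Type} [Field E] [Field M] [Algebra E M] {m : ℕ}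
    (J : Ideal (MvPolynomial (Fin m) E)) :
    (J.map (MvPolynomial.map (algebraMap E M))).comap (MvPolynomial.map (algebraMap E M)) = J := by
  apply le_antisymm _ Ideal.le_comap_map
  intro f hf
  rw [Ideal.mem_comap] at hf
  obtain ⟨l, hl⟩ : ∃ l : M →ₗ[E] E, l 1 = 1 := by
    obtain ⟨l, hl⟩ := LinearMap.exists_leftInverse_of_injective (Algebra.linearMap E M)
      (LinearMap.ker_eq_bot.2 (algebraMap E M).injective)
    refine ⟨l, ?_⟩
    have := LinearMap.congr_fun hl 1
    simpa using this
  have h1 := cmap_mem l J _ hf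
  have h2 := cmap_mul l f (1 : MvPolynomial (Fin m) M)
  rw [mul_one] at h2
  rw [h2] at h1
  have h3 : cmap l (1 : MvPolynomial (Fin m) M) = 1 := by
    classical
    ext d
    rw [coeff_cmap, coeff_one, coeff_one]
    split_ifs
    · exact hl
    · exact map_zero l
  rwa [h3, mul_one] at h1

/-- two extension fields lie in a common one -/
theorem exists_common (K E L : Type) [Field K] [Field E] [Field L] [Algebra K E] [Algebra K L] :
    ∃ (M : Type) (_ : Field M) (_ : Algebra K M) (_ : Algebra E M) (_ : Algebra L M),
      IsScalarTower K E M ∧ IsScalarTower K L M := by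
  obtain ⟨P, hP⟩ := Ideal.exists_maximal (TensorProduct K E L)
  let M := TensorProduct K E L ⧸ P
  let _ : Field M := Ideal.Quotient.field P
  let iE : E →ₐ[K] M := (Ideal.Quotient.mkₐ K P).comp Algebra.TensorProduct.includeLeft
  let iL : L →ₐ[K] M := (Ideal.Quotient.mkₐ K P).comp Algebra.TensorProduct.includeRight
  refine ⟨M, inferInstance, inferInstance, iE.toRingHom.toAlgebra, iL.toRingHom.toAlgebra, ?_, ?_⟩
  · let _ : Algebra E M := iE.toRingHom.toAlgebra
    exact IsScalarTower.of_algebraMap_eq fun x => (iE.commutes x).symm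
  · let _ : Algebra L M := iL.toRingHom.toAlgebra
    exact IsScalarTower.of_algebraMap_eq fun x => (iL.commutes x).symm

/-- going down -/
theorem GP.down {K L : Type} [Field K] [Field L] [Algebra K L] {m : ℕ}
    {I : Ideal (MvPolynomial (Fin m) K)}
    (h : GP L m (I.map (MvPolynomial.map (algebraMap K L)))) : GP K m I := by
  intro E _ _
  obtain ⟨M, _, _, _, _, hE, hL⟩ := exists_common K E L
  have h1 := h M
  rw [Ideal.map_map] at h1
  have h2 : (MvPolynomial.map (algebraMap L M)).comp (MvPolynomial.map (algebraMap K L)) =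
      (MvPolynomial.map (algebraMap E M)).comp (MvPolynomial.map (σ := Fin m)
        (algebraMap K E)) := by
    ext x
    · simp [← IsScalarTower.algebraMap_apply]
    · simp
  rw [h2, ← Ideal.map_map] at h1
  rw [← comap_map_eq (M := M) (I.map (MvPolynomial.map (algebraMap K E)))]
  exact Ideal.IsPrime.comap _

end Pool.Agent.N886.PAC
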