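import Pool.Agent.N886.PAC.Tower

/-!
# The absolute Galois group of the field
-/

set_option autoImplicit false

namespace Pool.Agent.N886.PAC

/-- If no product of two different primes is a square in `K` then the absolute Galois group of `K` is
not topologically finitely generated. -/
theorem not_topfg (K : Type) [Field K] [CharZero K]
    (h : ∀ p q : ℕ, p.Prime → q.Prime → p ≠ q → ∀ x : K, x ^ 2 ≠ (p : K) * q) :
    ¬ ∃ T : Finset (SeparableClosure K ≃ₐ[K] SeparableClosure K),
      (Subgroup.closure (T : Set (SeparableClosure K ≃ₐ[K] SeparableClosure K))).topologicalClosure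
        = ⊤ := by
  rintro ⟨T, hT⟩
  have hs : ∀ p : Nat.Primes, ∃ s : SeparableClosure K, s ^ 2 = ((p : ℕ) : SeparableClosure K) := by
    intro p
    have : NeZero ((2 : ℕ) : SeparableClosure K) := ⟨by norm_num⟩
    exact IsSepClosed.exists_pow_nat_eq _ 2
  choose s hs using hs
  have hs0 : ∀ p, s p ≠ 0 := by
    intro p h0
    have := hs p
    rw [h0, zero_pow two_ne_zero] at this
    exact (Nat.cast_ne_zero.2 p.2.ne_zero) this.symm
  obtain ⟨p, q, hpq, hsame⟩ := Finite.exists_ne_map_eq_of_infinite
    (fun (p : Nat.Primes) (g : T) => (g.1 (s p) = s p : Prop))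
  have hg : ∀ (g : SeparableClosure K ≃ₐ[K] SeparableClosure K) (p : Nat.Primes),
      g (s p) = s p ∨ g (s p) = - s p := by
    intro g p
    have h1 : (g (s p)) ^ 2 = (s p) ^ 2 := by
      rw [← map_pow, hs, map_natCast]
    exact sq_eq_sq_iff_eq_or_eq_neg.1 h1
  let r := s p * s q
  have hr : ∀ g ∈ T, g r = r := by
    intro g hgT
    have h1 := congrFun hsame ⟨g, hgT⟩
    simp only [eq_iff_iff] at h1
    change g (s p * s q) = s p * s q
    rw [map_mul]
    rcases hg g p with hp | hp
    · rw [hp, h1.1 hp]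
    · rcases hg g q with hq | hq
      · rw [h1.2 hq, hq]
      · rw [hp, hq, neg_mul_neg]
  let L := IntermediateField.adjoin K {r}
  have hcl := InfiniteGalois.fixingSubgroup_isClosed (k := K) (K := SeparableClosure K) L
  have hle : Subgroup.closure (T : Set (SeparableClosure K ≃ₐ[K] SeparableClosure K)) ≤
      L.fixingSubgroup := by
    rw [Subgroup.closure_le]
    intro g hgT
    rw [SetLike.mem_coe, IntermediateField.mem_fixingSubgroup_iff]
    intro x hx
    have : L ≤ IntermediateField.fixedField (Subgroup.zpowers g) := by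
      rw [IntermediateField.adjoin_le_iff]
      rintro _ rfl
      rw [SetLike.mem_coe, IntermediateField.mem_fixedField_iff]
      intro σ hσ
      obtain ⟨n, rfl⟩ := Subgroup.mem_zpowers_iff.1 hσ
      have h2 : g ∈ MulAction.stabilizer (SeparableClosure K ≃ₐ[K] SeparableClosure K) r :=
        hr g hgT
      exact (Subgroup.zpow_mem _ h2 n)
    have h3 := this hx
    rw [IntermediateField.mem_fixedField_iff] at h3
    exact h3 g (Subgroup.mem_zpowers g)
  have htop : (⊤ : Subgroup (SeparableClosure K ≃ₐ[K] SeparableClosure K)) ≤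
      L.fixingSubgroup := by
    rw [← hT]
    exact Subgroup.topologicalClosure_minimal _ hle hcl
  have hfix : ∀ g : SeparableClosure K ≃ₐ[K] SeparableClosure K, g r = r := by
    intro g
    have := htop (Subgroup.mem_top g)
    rw [IntermediateField.mem_fixingSubgroup_iff] at this
    exact this r (IntermediateField.mem_adjoin_simple_self K r)
  have hbot := (InfiniteGalois.mem_bot_iff_fixed r).2 hfix
  rw [IntermediateField.mem_bot] at hbot
  obtain ⟨c, hc⟩ := hbot
  apply h p q p.2 q.2 (fun h => hpq (Subtype.ext h)) c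
  apply (algebraMap K (SeparableClosure K)).injective
  rw [map_pow, hc, map_mul, map_natCast, map_natCast]
  change (s p * s q) ^ 2 = _
  rw [mul_pow, hs, hs]

/-- a product of two different primes is not a square in a subfield of `ℂ` in which the elements
with rational square are rational -/
theorem no_sqrt (K : Subfield ℂ) (hK : SqP ⊥ K) (p q : ℕ) (hp : p.Prime) (hq : q.Prime)
    (hpq : p ≠ q) (x : K) : x ^ 2 ≠ (p : K) * q := by
  intro h
  have h1 : (x : ℂ) ^ 2 = (p : ℂ) * q := by
    have := congrArg (Subtype.val) h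
    simpa using this
  have h2 : (x : ℂ) ∈ (⊥ : Subfield ℂ) := by
    apply hK x x.2
    rw [h1]
    exact mul_mem (natCast_mem _ p) (natCast_mem _ q)
  obtain ⟨y, hy⟩ : ∃ y : ℚ, (y : ℂ) = x := by
    have h3 : (⊥ : Subfield ℂ) ≤ (algebraMap ℚ ℂ).fieldRange := bot_le
    exact h3 h2
  rw [← hy] at h1
  have h4 : y ^ 2 = (p : ℚ) * q := by exact_mod_cast h1
  have h5 : IsSquare ((p * q : ℕ) : ℚ) := ⟨y, by rw [← sq, h4]; push_cast; rfl⟩
  rw [Rat.isSquare_natCast_iff] at h5
  obtain ⟨n, hn⟩ := h5
  have h6 : p ∣ n := by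
    have : p ∣ n * n := hn ▸ dvd_mul_right p q
    rcases (Nat.Prime.dvd_mul hp).1 this with h | h <;> exact h
  obtain ⟨k, rfl⟩ := h6
  have h7 : q = p * (k * k) := by
    have : p * q = p * (p * (k * k)) := by rw [hn]; ring
    exact Nat.eq_of_mul_eq_mul_left hp.pos this
  have h8 : p ∣ q := ⟨_, h7⟩
  exact hpq ((Nat.prime_dvd_prime_iff_eq hp hq).1 h8)

end Pool.Agent.N886.PAC
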