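import Pool.Agent.N886.PAC.Basic

/-!
# From ideals to schemes
-/

set_option autoImplicit false

namespace Pool.Agent.N886.PAC

open MvPolynomial TensorProduct

theorem gp_of_domain (K : Type) [Field K] (R : Type) [CommRing R] [Algebra K R] (m : ℕ)
    (π : MvPolynomial (Fin m) K →ₐ[K] R) (hπ : Function.Surjective π)
    (h : ∀ (E : Type) [Field E] [Algebra K E], IsDomain (E ⊗[K] R)) :
    GP K m (RingHom.ker π) := by
  intro E _ _
  have hd := h E
  have h1 := Algebra.TensorProduct.lTensor_ker (A := E) π hπ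
  have h2 : (RingHom.ker (Algebra.TensorProduct.map (AlgHom.id K E) π)).IsPrime :=
    RingHom.ker_isPrime _
  rw [h1] at h2
  let e := algebraTensorAlgEquiv (σ := Fin m) K E
  have h3 := Ideal.map_isPrime_of_equiv e.toRingEquiv
    (I := (RingHom.ker π).map (Algebra.TensorProduct.includeRight :
      MvPolynomial (Fin m) K →ₐ[K] E ⊗[K] MvPolynomial (Fin m) K))
  have h4 : ((RingHom.ker π).map (Algebra.TensorProduct.includeRight :
      MvPolynomial (Fin m) K →ₐ[K] E ⊗[K] MvPolynomial (Fin m) K)).map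
      e.toRingEquiv =
      (RingHom.ker π).map (MvPolynomial.map (algebraMap K E)) := by
    have h5 : ∀ f : MvPolynomial (Fin m) K,
        e (Algebra.TensorProduct.includeRight f) = MvPolynomial.map (algebraMap K E) f := by
      intro f
      change algebraTensorAlgEquiv K E (1 ⊗ₜ f) = _
      rw [algebraTensorAlgEquiv_tmul, one_smul]
    apply le_antisymm
    · rw [Ideal.map_le_iff_le_comap, Ideal.map_le_iff_le_comap]
      intro f hf
      rw [Ideal.mem_comap, Ideal.mem_comap]
      have h6 := Ideal.mem_map_of_mem (MvPolynomial.map (algebraMap K E)) hf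
      rw [← h5 f] at h6
      exact h6
    · rw [Ideal.map_le_iff_le_comap]
      intro f hf
      rw [Ideal.mem_comap, ← h5 f]
      exact Ideal.mem_map_of_mem e.toRingEquiv (Ideal.mem_map_of_mem _ hf)
  rw [h4] at h3
  exact h3

/-- the coordinate ring of a geometrically integral affine variety has a `K`-point -/
theorem exists_algHom (K : Type) [Field K]
    (hK : ∀ (m : ℕ) (I : Ideal (MvPolynomial (Fin m) K)), GP K m I →
      ∃ a : Fin m → K, ∀ f ∈ I, eval a f = 0)
    (R : Type) [CommRing R] [Algebra K R] [Algebra.FiniteType K R]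
    (h : ∀ (E : Type) [Field E] [Algebra K E], IsDomain (E ⊗[K] R)) : Nonempty (R →ₐ[K] K) := by
  obtain ⟨m, π, hπ⟩ := Algebra.FiniteType.iff_quotient_mvPolynomial''.1
    (inferInstance : Algebra.FiniteType K R)
  obtain ⟨a, ha⟩ := hK m _ (gp_of_domain K R m π hπ h)
  let l : (MvPolynomial (Fin m) K ⧸ RingHom.ker π) →ₐ[K] K :=
    Ideal.Quotient.liftₐ (RingHom.ker π) (aeval a) (fun f hf => by
      rw [← MvPolynomial.coe_aeval_eq_eval] at ha
      exact ha f hf)
  exact ⟨l.comp (Ideal.quotientKerAlgEquivOfSurjective hπ).symm.toAlgHom⟩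

end Pool.Agent.N886.PAC

open AlgebraicGeometry CategoryTheory Limits TensorProduct

namespace Pool.Agent.N886.PAC

theorem domain_of_open (K : Type) [Field K] (X : Scheme.{0}) (f : X ⟶ Spec (.of K))
    [GeometricallyIntegral f] (R : CommRingCat.{0}) [Nontrivial R] (j : Spec R ⟶ X)
    [IsOpenImmersion j] (φ : CommRingCat.of K ⟶ R) (hφ : j ≫ f = Spec.map φ)
    (E : Type) [Field E] [Algebra K E] :
    letI : Algebra K R := φ.hom.toAlgebra
    IsDomain (E ⊗[K] R) := by
  let _ : Algebra K R := φ.hom.toAlgebra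
  let g : Spec (CommRingCat.of E) ⟶ Spec (CommRingCat.of K) :=
    Spec.map (CommRingCat.ofHom (algebraMap K E))
  have hint : IsIntegral (pullback f g) :=
    GeometricallyIntegral.geometrically_isIntegral g (pullback.fst f g) (pullback.snd f g)
      (IsPullback.of_hasPullback f g)
  -- the affine pullback
  have hpo := CommRingCat.isPushout_tensorProduct K E R
  have hpb : IsPullback (Spec.map (CommRingCat.ofHom
      (Algebra.TensorProduct.includeRight : R →ₐ[K] E ⊗[K] R).toRingHom))
      (Spec.map (CommRingCat.ofHom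
      (Algebra.TensorProduct.includeLeft : E →ₐ[K] E ⊗[K] R).toRingHom))
      (j ≫ f) g := by
    rw [hφ]
    exact isPullback_SpecMap_of_isPushout _ _ _ _ hpo.flip
  let k : Spec (CommRingCat.of (E ⊗[K] R)) ⟶ pullback f g :=
    pullback.lift (Spec.map (CommRingCat.ofHom
      (Algebra.TensorProduct.includeRight : R →ₐ[K] E ⊗[K] R).toRingHom) ≫ j)
      (Spec.map (CommRingCat.ofHom
      (Algebra.TensorProduct.includeLeft : E →ₐ[K] E ⊗[K] R).toRingHom)) (by
        rw [Category.assoc]; exact hpb.w)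
  have hk1 : k ≫ pullback.fst f g = Spec.map (CommRingCat.ofHom
      (Algebra.TensorProduct.includeRight : R →ₐ[K] E ⊗[K] R).toRingHom) ≫ j :=
    pullback.lift_fst _ _ _
  have hk2 : k ≫ pullback.snd f g = Spec.map (CommRingCat.ofHom
      (Algebra.TensorProduct.includeLeft : E →ₐ[K] E ⊗[K] R).toRingHom) :=
    pullback.lift_snd _ _ _
  have hpb2 : IsPullback (Spec.map (CommRingCat.ofHom
      (Algebra.TensorProduct.includeRight : R →ₐ[K] E ⊗[K] R).toRingHom)) k j
      (pullback.fst f g) := by
    refine IsPullback.of_bot (v₂₁ := pullback.snd f g) (v₂₂ := f) (h₃₁ := g) ?_ hk1.symm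
      (IsPullback.of_hasPullback f g)
    rw [hk2]
    exact hpb
  have hopen : IsOpenImmersion k := by
    exact MorphismProperty.of_isPullback (P := @IsOpenImmersion) hpb2 inferInstance
  have hnt : Nontrivial (E ⊗[K] R) := inferInstance
  have hne : Nonempty (Spec (CommRingCat.of (E ⊗[K] R))) :=
    (inferInstance : Nonempty (PrimeSpectrum (E ⊗[K] R)))
  have hI : IsIntegral (Spec (CommRingCat.of (E ⊗[K] R))) := isIntegral_of_isOpenImmersion k
  exact (affine_isIntegral_iff _).1 hI

/-- a geometrically integral scheme locally of finite type over `K` has a `K`-point -/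
theorem exists_section (K : Type) [Field K]
    (hK : ∀ (m : ℕ) (I : Ideal (MvPolynomial (Fin m) K)), GP K m I →
      ∃ a : Fin m → K, ∀ f ∈ I, MvPolynomial.eval a f = 0)
    (X : Scheme.{0}) (f : X ⟶ Spec (.of K)) [GeometricallyIntegral f] [LocallyOfFiniteType f] :
    ∃ s : Spec (.of K) ⟶ X, s ≫ f = 𝟙 _ := by
  have hX : IsIntegral X := GeometricallyIntegral.isIntegral_of_subsingleton f
  obtain ⟨x⟩ : Nonempty X := inferInstance
  obtain ⟨R, j, hj, y, hy⟩ : ∃ (R : CommRingCat.{0}) (j : Spec R ⟶ X), IsOpenImmersion j ∧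
      ∃ y : Spec R, j y = x := by
    obtain ⟨y, hy⟩ := X.affineOpenCover.covers x
    exact ⟨_, X.affineOpenCover.f (X.affineOpenCover.idx x), inferInstance, y, hy⟩
  have hnt : Nontrivial R := by
    have : Nonempty (PrimeSpectrum R) := ⟨y⟩
    exact PrimeSpectrum.nonempty_iff_nontrivial.1 this
  obtain ⟨φ, hφ⟩ := Spec.map_surjective (j ≫ f)
  have hft : LocallyOfFiniteType (Spec.map φ) := by
    rw [hφ]
    infer_instance
  have hft2 : φ.hom.FiniteType := HasRingHomProperty.Spec_iff.mp hft
  let _ : Algebra K R := φ.hom.toAlgebra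
  have hft3 : Algebra.FiniteType K R := hft2
  obtain ⟨ρ⟩ := exists_algHom K hK R (fun E _ _ => domain_of_open K X f R j φ hφ.symm E)
  refine ⟨Spec.map (CommRingCat.ofHom ρ.toRingHom) ≫ j, ?_⟩
  rw [Category.assoc, ← hφ, ← Spec.map_comp, ← Spec.map_id]
  congr 1
  ext z
  exact ρ.commutes z

end Pool.Agent.N886.PAC
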