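import Pool.Agent.N886.PAC.Gal
import Pool.Agent.N886.PAC.Geo

/-!
# The field
-/

set_option autoImplicit false

open AlgebraicGeometry CategoryTheory

namespace Pool.Agent.N886.PAC

theorem main : ∃ (K : Type) (_ : Field K), CharZero K ∧
    (∀ (X : Scheme.{0}) (f : X ⟶ Spec (.of K)), GeometricallyIntegral f → LocallyOfFiniteType f →
      ∃ s : Spec (.of K) ⟶ X, s ≫ f = 𝟙 _) ∧
    ¬ ∃ T : Finset (SeparableClosure K ≃ₐ[K] SeparableClosure K),
      (Subgroup.closure (T : Set (SeparableClosure K ≃ₐ[K] SeparableClosure K))).topologicalClosure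
        = ⊤ := by
  obtain ⟨K, h1, h2⟩ := exists_pac
  exact ⟨K, inferInstance, inferInstance, fun X f _ _ => exists_section K h2 X f,
    not_topfg K (no_sqrt K h1)⟩

end Pool.Agent.N886.PAC
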