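import Pool.Agent.N886.PAC.Basic

/-!
# One step: a generic point of a geometrically integral variety over a countable subfield of `ℂ`
-/

set_option autoImplicit false

namespace Pool.Agent.N886.PAC

open MvPolynomial Cardinal

/-- a countable extension field of a countable subfield of `ℂ` embeds in `ℂ` -/
theorem exists_embedding (K : Type) [Field K] [Countable K] [Algebra K ℂ] (F : Type) [Field F]
    [Countable F] [Algebra K F] : Nonempty (F →ₐ[K] ℂ) := by
  obtain ⟨ι, x, hx⟩ := exists_isTranscendenceBasis' K F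
  obtain ⟨κ, y, hy⟩ := exists_isTranscendenceBasis' K ℂ
  have hκ : #ℂ = #κ := IsAlgClosed.cardinal_eq_cardinal_transcendence_basis_of_aleph0_lt' y hy
    (mk_le_aleph0_iff.2 inferInstance) (by rw [mk_complex]; exact aleph0_lt_continuum)
  have hι : #ι ≤ #κ := by
    have h1 : #ι ≤ #F := mk_le_of_injective hx.1.injective
    have h2 : #F ≤ ℵ₀ := mk_le_aleph0_iff.2 inferInstance
    exact (h1.trans h2).trans (aleph0_le_continuum.trans (mk_complex.symm.le.trans hκ.le))
  obtain ⟨e⟩ := hι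
  let ψ : Algebra.adjoin K (Set.range x) →ₐ[K] ℂ :=
    (MvPolynomial.aeval (fun i => y (e i))).comp (hx.1.aevalEquiv.symm : _ →ₐ[K] _)
  have hψ : Function.Injective ψ := by
    have h1 : Function.Injective (MvPolynomial.aeval (fun i => y (e i)) :
      MvPolynomial ι K →ₐ[K] ℂ) := hy.1.comp e e.injective
    intro a b hab
    exact hx.1.aevalEquiv.symm.injective (h1 hab)
  let _ : Algebra (Algebra.adjoin K (Set.range x)) ℂ := ψ.toRingHom.toAlgebra
  have _ : FaithfulSMul (Algebra.adjoin K (Set.range x)) ℂ :=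
    (faithfulSMul_iff_algebraMap_injective _ _).2 hψ
  have _ : Algebra.IsAlgebraic (Algebra.adjoin K (Set.range x)) F := hx.isAlgebraic
  let τ : F →ₐ[Algebra.adjoin K (Set.range x)] ℂ := IsAlgClosed.lift
  refine ⟨{ τ.toRingHom with commutes' := fun a => ?_ }⟩
  have h1 := τ.commutes (algebraMap K (Algebra.adjoin K (Set.range x)) a)
  exact h1.trans (ψ.commutes a)

/-- `K'` contains no new square roots of elements of `K` -/
def SqP (K K' : Subfield ℂ) : Prop := ∀ x ∈ K', x ^ 2 ∈ K → x ∈ K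

theorem SqP.trans {K L M : Subfield ℂ} (hKL : K ≤ L) (h1 : SqP K L) (h2 : SqP L M) : SqP K M :=
  fun x hx hx2 => h1 x (h2 x hx (hKL hx2)) hx2

theorem SqP.refl (K : Subfield ℂ) : SqP K K := fun _ hx _ => hx

/-- if `r ∉ K`, `r ^ 2 ∈ K` and `p ^ 2 - r ^ 2 q ^ 2 ∈ I` then `q ∈ I` -/
theorem key (K : Subfield ℂ) (m : ℕ) (I : Ideal (MvPolynomial (Fin m) K)) (h : GP K m I)
    (r : ℂ) (hr : r ∉ K) (d : K) (hd : (d : ℂ) = r ^ 2) (p q : MvPolynomial (Fin m) K)
    (hpq : p ^ 2 - C d * q ^ 2 ∈ I) : q ∈ I := by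
  have h1 := h ℂ
  have h2 := Ideal.mem_map_of_mem (MvPolynomial.map (algebraMap K ℂ)) hpq
  have h3 : MvPolynomial.map (algebraMap K ℂ) (p ^ 2 - C d * q ^ 2) =
      (MvPolynomial.map (algebraMap K ℂ) p - C r * MvPolynomial.map (algebraMap K ℂ) q) *
      (MvPolynomial.map (algebraMap K ℂ) p + C r * MvPolynomial.map (algebraMap K ℂ) q) := by
    have h4 : (C (algebraMap K ℂ d) : MvPolynomial (Fin m) ℂ) = C r ^ 2 := by
      rw [← C_pow, ← hd]
      rfl
    simp only [map_sub, map_pow, map_mul, map_C]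
    rw [h4]
    ring
  rw [h3] at h2
  -- the functional
  obtain ⟨l, hl1, hlr⟩ : ∃ l : ℂ →ₗ[K] K, l 1 = 0 ∧ l r ≠ 0 := by
    have hr2 : r ∉ (Submodule.span K {(1 : ℂ)}) := by
      intro hmem
      rw [Submodule.mem_span_singleton] at hmem
      obtain ⟨a, ha⟩ := hmem
      apply hr
      rw [← ha, Algebra.smul_def, mul_one]
      exact a.2
    obtain ⟨l, hl, hl2⟩ := Submodule.exists_le_ker_of_notMem hr2
    refine ⟨l, ?_, hl⟩
    exact hl2 (Submodule.mem_span_singleton_self _)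
  have hc : ∀ (c : ℂ) (p : MvPolynomial (Fin m) K),
      cmap l (C c * MvPolynomial.map (algebraMap K ℂ) p) = C (l c) * p := by
    intro c p
    rw [mul_comm, cmap_mul, mul_comm]
    congr 1
    classical
    ext d
    rw [coeff_cmap, coeff_C, coeff_C]
    split_ifs
    · rfl
    · rw [map_zero]
  have hp0 : cmap l (MvPolynomial.map (algebraMap K ℂ) p) = 0 := by
    have := hc 1 p
    rw [hl1, C_1, one_mul, C_0, zero_mul] at this
    exact this
  have hfin : C (l r) * q ∈ I → q ∈ I := by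
    intro h5
    have h6 := I.mul_mem_left (C (l r)⁻¹) h5
    rw [← mul_assoc, ← C_mul, inv_mul_cancel₀ hlr, C_1, one_mul] at h6
    exact h6
  rcases h1.mem_or_mem h2 with h5 | h5
  · have h6 := cmap_mem l I _ h5
    rw [cmap_sub, hp0, hc, zero_sub] at h6
    exact hfin (neg_mem_iff.1 h6)
  · have h6 := cmap_mem l I _ h5
    rw [cmap_add, hp0, hc, zero_add] at h6
    exact hfin h6

theorem countable_mv (K : Type) [Field K] [Countable K] (m : ℕ) :
    Countable (MvPolynomial (Fin m) K) := by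
  have h1 : #(MvPolynomial (Fin m) K) ≤ max (max #K #(Fin m)) ℵ₀ :=
    MvPolynomial.cardinalMk_le_max
  have h2 : max (max #K #(Fin m)) ℵ₀ ≤ ℵ₀ :=
    max_le (max_le (mk_le_aleph0_iff.2 inferInstance) (mk_le_aleph0_iff.2 inferInstance)) le_rfl
  exact mk_le_aleph0_iff.1 (h1.trans h2)

theorem fracs (K : Type) [Field K] [Countable K] (m : ℕ) (I : Ideal (MvPolynomial (Fin m) K))
    [hI : I.IsPrime] : ∃ (F : Type) (_ : Field F) (_ : Algebra K F)
      (pr : MvPolynomial (Fin m) K →ₐ[K] F), Countable F ∧ (∀ f, pr f = 0 ↔ f ∈ I) ∧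
      ∀ z : F, ∃ p q, q ∉ I ∧ pr p = z * pr q := by
  have hcP : Countable (MvPolynomial (Fin m) K) := countable_mv K m
  have hcA : Countable (MvPolynomial (Fin m) K ⧸ I) := Quotient.countable
  have hinj : Function.Injective (algebraMap (MvPolynomial (Fin m) K ⧸ I)
    (FractionRing (MvPolynomial (Fin m) K ⧸ I))) := IsFractionRing.injective _ _
  have hpr : ∀ f, ((IsScalarTower.toAlgHom K (MvPolynomial (Fin m) K ⧸ I)
      (FractionRing (MvPolynomial (Fin m) K ⧸ I))).comp (Ideal.Quotient.mkₐ K I)) f = 0 ↔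
      f ∈ I := by
    intro f
    rw [AlgHom.comp_apply, IsScalarTower.toAlgHom_apply, Ideal.Quotient.mkₐ_eq_mk]
    constructor
    · intro h0
      rw [← map_zero (algebraMap (MvPolynomial (Fin m) K ⧸ I)
        (FractionRing (MvPolynomial (Fin m) K ⧸ I)))] at h0
      exact Ideal.Quotient.eq_zero_iff_mem.1 (hinj h0)
    · intro hf
      rw [Ideal.Quotient.eq_zero_iff_mem.2 hf, map_zero]
  refine ⟨FractionRing (MvPolynomial (Fin m) K ⧸ I), inferInstance, inferInstance,
    (IsScalarTower.toAlgHom K (MvPolynomial (Fin m) K ⧸ I) _).comp (Ideal.Quotient.mkₐ K I),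
    ?_, hpr, ?_⟩
  · have hsurj : Function.Surjective (fun z : (MvPolynomial (Fin m) K ⧸ I) ×
        (MvPolynomial (Fin m) K ⧸ I) =>
        (algebraMap (MvPolynomial (Fin m) K ⧸ I) (FractionRing (MvPolynomial (Fin m) K ⧸ I)) z.1 /
          algebraMap (MvPolynomial (Fin m) K ⧸ I)
            (FractionRing (MvPolynomial (Fin m) K ⧸ I)) z.2)) := fun z => by
      obtain ⟨a, b, -, hab⟩ := IsFractionRing.div_surjective (A := MvPolynomial (Fin m) K ⧸ I) z
      exact ⟨(a, b), hab⟩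
    exact hsurj.countable
  · intro z
    obtain ⟨a, b, hb, hab⟩ := IsFractionRing.div_surjective (A := MvPolynomial (Fin m) K ⧸ I) z
    obtain ⟨p, rfl⟩ := Ideal.Quotient.mk_surjective a
    obtain ⟨q, rfl⟩ := Ideal.Quotient.mk_surjective b
    have hq : q ∉ I := by
      intro hq
      rw [← Ideal.Quotient.eq_zero_iff_mem] at hq
      rw [hq] at hb
      exact nonZeroDivisors.ne_zero hb rfl
    refine ⟨p, q, hq, ?_⟩
    have h1 : algebraMap (MvPolynomial (Fin m) K ⧸ I) (FractionRing (MvPolynomial (Fin m) K ⧸ I))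
        (Ideal.Quotient.mk I q) ≠ 0 := by
      intro h0
      exact hq ((hpr q).1 h0)
    rw [← hab]
    exact (div_mul_cancel₀ _ h1).symm

theorem step (K : Subfield ℂ) (hK : Countable K) (m : ℕ) (I : Ideal (MvPolynomial (Fin m) K))
    (h : GP K m I) : ∃ K' : Subfield ℂ, K ≤ K' ∧ Countable K' ∧ SqP K K' ∧
      ∃ a : Fin m → ℂ, (∀ i, a i ∈ K') ∧ ∀ f ∈ I, aeval a f = 0 := by
  have hI : I.IsPrime := by
    have h1 := h K
    have h2 : (MvPolynomial.map (algebraMap K K) : MvPolynomial (Fin m) K →+* _) =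
        RingHom.id _ := by
      ext x <;> simp
    rwa [h2, Ideal.map_id] at h1
  obtain ⟨F, _, _, pr, hcF, hprI, hz⟩ := fracs K m I
  obtain ⟨j⟩ := exists_embedding K F
  refine ⟨j.toRingHom.fieldRange, ?_, ?_, ?_, fun i => j (pr (X i)), ?_, ?_⟩
  · intro x hx
    exact ⟨algebraMap K F ⟨x, hx⟩, j.commutes ⟨x, hx⟩⟩
  · have : Function.Surjective (fun z : F => (⟨j z, z, rfl⟩ : j.toRingHom.fieldRange)) := by
      rintro ⟨_, z, rfl⟩
      exact ⟨z, rfl⟩
    exact this.countable
  · rintro _ ⟨z, rfl⟩ hz2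
    by_contra hne
    obtain ⟨p, q, hq, hpq⟩ := hz z
    apply hq
    refine key K m I h (j z) hne ⟨(j z) ^ 2, hz2⟩ rfl p q ?_
    rw [← hprI]
    apply (j : F →+* ℂ).injective
    have e1 : j (pr p) = j z * j (pr q) := by
      rw [hpq, map_mul]
    have e2 : j (pr (C ⟨(j z) ^ 2, hz2⟩)) = (j z) ^ 2 := by
      have : pr (C ⟨(j z) ^ 2, hz2⟩) = algebraMap K F ⟨(j z) ^ 2, hz2⟩ := pr.commutes _
      rw [this]
      exact j.commutes _
    change j (pr (p ^ 2 - C ⟨(j z) ^ 2, hz2⟩ * q ^ 2)) = j 0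
    simp only [map_sub, map_pow, map_mul, map_zero]
    rw [e1, e2]
    ring
  · intro i
    exact ⟨_, rfl⟩
  · intro f hf
    have e0 : aeval (fun i => j (pr (X i))) = j.comp pr := by
      ext i
      simp
    rw [e0, AlgHom.comp_apply, (hprI f).2 hf, map_zero]

end Pool.Agent.N886.PAC
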