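import Pool.Agent.N886.PAC.Step

/-!
# The tower: a subfield of `ℂ` over which all geometrically integral varieties have points
-/

set_option autoImplicit false

namespace Pool.Agent.N886.PAC

open MvPolynomial Cardinal

theorem countable_ideal (R : Type) [CommRing R] [Countable R] [IsNoetherianRing R] :
    Countable (Ideal R) := by
  have h : Function.Surjective (fun S : Finset R => Ideal.span (S : Set R)) := by
    intro I
    obtain ⟨S, hS⟩ := (isNoetherianRing_iff_ideal_fg R).1 inferInstance I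
    exact ⟨S, hS⟩
  exact h.countable

theorem countable_bot : Countable (⊥ : Subfield ℂ) := by
  have h1 := Subfield.cardinalMk_closure_le_max (∅ : Set ℂ)
  rw [Subfield.closure_empty] at h1
  have h2 : #(⊥ : Subfield ℂ) ≤ ℵ₀ := h1.trans (max_le (by simp) le_rfl)
  exact mk_le_aleph0_iff.1 h2

theorem mem_iSup' (L : ℕ → Subfield ℂ) (hL : Monotone L) (x : ℂ) :
    x ∈ (⨆ n, L n) ↔ ∃ n, x ∈ L n :=
  Subfield.mem_iSup_of_directed (hL.directed_le)

theorem countable_iSup' (L : ℕ → Subfield ℂ) (hL : Monotone L) (hc : ∀ n, Countable (L n)) :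
    Countable (⨆ n, L n : Subfield ℂ) := by
  have h1 : ((⨆ n, L n : Subfield ℂ) : Set ℂ) = ⋃ n, (L n : Set ℂ) := by
    ext x
    simp only [SetLike.mem_coe, Set.mem_iUnion]
    exact mem_iSup' L hL x
  have h2 : ((⨆ n, L n : Subfield ℂ) : Set ℂ).Countable := by
    rw [h1]
    exact Set.countable_iUnion fun n => Set.countable_coe_iff.1 (hc n)
  exact Set.countable_coe_iff.2 h2

/-- one more point, over a bigger field -/
theorem step_over (K : Subfield ℂ) (m : ℕ) (I : Ideal (MvPolynomial (Fin m) K))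
    (h : GP K m I) (L : Subfield ℂ) (hKL : K ≤ L) (hL : Countable L) :
    ∃ L' : Subfield ℂ, L ≤ L' ∧ Countable L' ∧ SqP L L' ∧
      ∃ a : Fin m → ℂ, (∀ i, a i ∈ L') ∧ ∀ f ∈ I, aeval a f = 0 := by
  let _ : Algebra K L := (Subfield.inclusion hKL).toAlgebra
  have : IsScalarTower K L ℂ := IsScalarTower.of_algebraMap_eq fun _ => rfl
  obtain ⟨L', h1, h2, h3, a, ha, h4⟩ := step L hL m _ (h.up (L := L))
  refine ⟨L', h1, h2, h3, a, ha, fun f hf => ?_⟩
  have h5 := h4 _ (Ideal.mem_map_of_mem (MvPolynomial.map (algebraMap K L)) hf)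
  rwa [aeval_map_algebraMap] at h5

theorem closure_step (K : Subfield ℂ) (hK : Countable K) : ∃ K' : Subfield ℂ, K ≤ K' ∧
    Countable K' ∧ SqP K K' ∧ ∀ (m : ℕ) (I : Ideal (MvPolynomial (Fin m) K)), GP K m I →
      ∃ a : Fin m → ℂ, (∀ i, a i ∈ K') ∧ ∀ f ∈ I, aeval a f = 0 := by
  have hcI : ∀ m, Countable (Ideal (MvPolynomial (Fin m) K)) := fun m => by
    have := countable_mv K m
    exact countable_ideal _
  let T := Σ m : ℕ, {I : Ideal (MvPolynomial (Fin m) K) // GP K m I}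
  have hT : Countable T := inferInstance
  rcases isEmpty_or_nonempty T with hT0 | hT0
  · refine ⟨K, le_rfl, hK, SqP.refl K, fun m I hI => ?_⟩
    exact (hT0.false ⟨m, I, hI⟩).elim
  obtain ⟨e, he⟩ := exists_surjective_nat T
  let St := {L : Subfield ℂ // K ≤ L ∧ Countable L ∧ SqP K L}
  have hex : ∀ (t : T) (L : St), ∃ L' : St, L.1 ≤ L'.1 ∧
      ∃ a : Fin t.1 → ℂ, (∀ i, a i ∈ L'.1) ∧ ∀ f ∈ t.2.1, aeval a f = 0 := by
    rintro ⟨m, I, hI⟩ ⟨L, hKL, hcL, hsL⟩
    obtain ⟨L', h1, h2, h3, h4⟩ := step_over K m I hI L hKL hcL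
    exact ⟨⟨L', hKL.trans h1, h2, SqP.trans hKL hsL h3⟩, h1, h4⟩
  choose F hF1 hF2 using hex
  let seq : ℕ → St := fun n => Nat.rec ⟨K, le_rfl, hK, SqP.refl K⟩ (fun n L => F (e n) L) n
  have hmono : Monotone (fun n => (seq n).1) :=
    monotone_nat_of_le_succ fun n => hF1 (e n) (seq n)
  refine ⟨⨆ n, (seq n).1, ?_, countable_iSup' _ hmono fun n => (seq n).2.2.1, ?_, ?_⟩
  · exact le_iSup (fun n => (seq n).1) 0
  · intro x hx hx2
    obtain ⟨n, hn⟩ := (mem_iSup' _ hmono x).1 hx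
    exact (seq n).2.2.2 x hn hx2
  · intro m I hI
    obtain ⟨n, hn⟩ := he ⟨m, I, hI⟩
    have hF3 : ∃ a : Fin (e n).1 → ℂ, (∀ i, a i ∈ (⨆ n, (seq n).1 : Subfield ℂ)) ∧
        ∀ f ∈ (e n).2.1, aeval a f = 0 := by
      obtain ⟨a, ha, h0⟩ := hF2 (e n) (seq n)
      exact ⟨a, fun i => (mem_iSup' _ hmono _).2 ⟨n + 1, ha i⟩, h0⟩
    rw [hn] at hF3
    exact hF3

/-- There is a subfield `K` of `ℂ` such that every geometrically prime ideal over `K` has a zero
in `K`, and such that the elements of `K` with rational square are rational. -/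
theorem exists_pac : ∃ K : Subfield ℂ, SqP ⊥ K ∧
    ∀ (m : ℕ) (I : Ideal (MvPolynomial (Fin m) K)), GP K m I →
      ∃ a : Fin m → K, ∀ f ∈ I, eval a f = 0 := by
  let St := {L : Subfield ℂ // Countable L ∧ SqP ⊥ L}
  have hex : ∀ L : St, ∃ L' : St, L.1 ≤ L'.1 ∧
      ∀ (m : ℕ) (I : Ideal (MvPolynomial (Fin m) L.1)), GP L.1 m I →
      ∃ a : Fin m → ℂ, (∀ i, a i ∈ L'.1) ∧ ∀ f ∈ I, aeval a f = 0 := by
    rintro ⟨L, hcL, hsL⟩
    obtain ⟨L', h1, h2, h3, h4⟩ := closure_step L hcL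
    exact ⟨⟨L', h2, SqP.trans bot_le hsL h3⟩, h1, h4⟩
  choose F hF1 hF2 using hex
  let seq : ℕ → St := fun n => Nat.rec ⟨⊥, countable_bot, SqP.refl ⊥⟩ (fun n L => F L) n
  have hmono : Monotone (fun n => (seq n).1) :=
    monotone_nat_of_le_succ fun n => hF1 (seq n)
  have hle : ∀ n, (seq n).1 ≤ ⨆ n, (seq n).1 := fun n => le_iSup (fun n => (seq n).1) n
  have hmem : ∀ x, x ∈ (⨆ n, (seq n).1) ↔ ∃ n, x ∈ (seq n).1 := mem_iSup' _ hmono
  obtain ⟨K, hKdef⟩ : ∃ K : Subfield ℂ, K = ⨆ n, (seq n).1 := ⟨_, rfl⟩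
  rw [← hKdef] at hle hmem
  refine ⟨K, ?_, ?_⟩
  · intro x hx hx2
    obtain ⟨n, hn⟩ := (hmem x).1 hx
    exact (seq n).2.2 x hn hx2
  · intro m I hI
    -- every polynomial has coefficients in some `seq n`
    have hcoef : ∀ f : MvPolynomial (Fin m) K, ∃ n, ∀ k ≥ n,
        f ∈ (MvPolynomial.map (σ := Fin m) (Subfield.inclusion (hle k))).range := by
      intro f
      induction f using MvPolynomial.induction_on with
      | C a =>
        obtain ⟨n, hn⟩ := (hmem (a : ℂ)).1 a.2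
        refine ⟨n, fun k hk => ⟨C ⟨a, hmono hk hn⟩, ?_⟩⟩
        rw [map_C]
        rfl
      | add p q hp hq =>
        obtain ⟨n1, h1⟩ := hp
        obtain ⟨n2, h2⟩ := hq
        exact ⟨max n1 n2, fun k hk => Subring.add_mem _ (h1 k (le_of_max_le_left hk))
          (h2 k (le_of_max_le_right hk))⟩
      | mul_X p i hp =>
        obtain ⟨n1, h1⟩ := hp
        refine ⟨n1, fun k hk => Subring.mul_mem _ (h1 k hk) ⟨X i, ?_⟩⟩
        rw [map_X]
    obtain ⟨S, hS⟩ := (isNoetherianRing_iff_ideal_fg (MvPolynomial (Fin m) K)).1 inferInstance I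
    choose N hN using hcoef
    let n := S.sup N
    let _ : Algebra (seq n).1 K := (Subfield.inclusion (hle n)).toAlgebra
    have hst : IsScalarTower (seq n).1 K ℂ := IsScalarTower.of_algebraMap_eq fun _ => rfl
    let J := I.comap (MvPolynomial.map (algebraMap (seq n).1 K))
    have hJ : J.map (MvPolynomial.map (algebraMap (seq n).1 K)) = I := by
      apply le_antisymm Ideal.map_comap_le
      rw [← hS, Ideal.span_le]
      intro f hf
      obtain ⟨g, hg⟩ := hN f n (Finset.le_sup hf)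
      have hg2 : MvPolynomial.map (algebraMap (seq n).1 K) g = f := hg
      rw [← hg2]
      apply Ideal.mem_map_of_mem
      rw [Ideal.mem_comap, hg2]
      exact Ideal.subset_span hf
    have hGP : GP (seq n).1 m J := by
      apply GP.down (L := K)
      rw [hJ]
      exact hI
    obtain ⟨a, ha, h0⟩ := hF2 (seq n) m J hGP
    have ha' : ∀ i, a i ∈ K := fun i => hle (n + 1) (ha i)
    refine ⟨fun i => ⟨a i, ha' i⟩, fun f hf => ?_⟩
    have h1 : aeval a f = (0 : ℂ) := by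
      rw [← hJ] at hf
      have h2 : J.map (MvPolynomial.map (algebraMap (seq n).1 K)) ≤
          RingHom.ker (aeval a : MvPolynomial (Fin m) K →ₐ[K] ℂ) := by
        rw [Ideal.map_le_iff_le_comap]
        intro g hg
        rw [Ideal.mem_comap, RingHom.mem_ker, aeval_map_algebraMap]
        exact h0 g hg
      exact h2 hf
    apply Subtype.ext
    change ((eval (fun i => (⟨a i, ha' i⟩ : K)) f : K) : ℂ) = 0
    rw [← h1]
    have h3 : (aeval a : MvPolynomial (Fin m) K →ₐ[K] ℂ) f =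
        algebraMap K ℂ (aeval (fun i => (⟨a i, ha' i⟩ : K)) f) := by
      have := MvPolynomial.aeval_algebraMap_apply (A := K) ℂ (fun i => (⟨a i, ha' i⟩ : K)) f
      exact this
    rw [h3, ← MvPolynomial.coe_aeval_eq_eval]
    rfl

end Pool.Agent.N886.PAC
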